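import Pool.Agent.H93.GS.Targets

/-!
# Theorem (G), MP_c59857_nt: elementary facts about the energy and logarithmic sums
-/

set_option autoImplicit false

namespace Pool.Agent.H84.GS

open Finset Pool.Agent.H6.N4D Pool.Agent.H93.GS
open Pool.Agent.H93 (EB.lg)

/-! ### the number of multiples -/

theorem card_mult (q N n : ℕ) (hq : 1 ≤ q) :
    (((Ioc n (n + N)).filter (fun m => q ∣ m)).card : ℝ) ≤ N / q + 1 := by
  have hq0 : (0 : ℝ) < q := by exact_mod_cast hq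
  have h1 : ((Ioc n (n + N)).filter (fun m => q ∣ m)).card ≤ (Ioc (n / q) ((n + N) / q)).card := by
    refine Finset.card_le_card_of_injOn (fun m => m / q) ?_ ?_
    · intro m hm
      have hm' : m ∈ (Ioc n (n + N)).filter (fun m => q ∣ m) := hm
      rw [mem_filter, mem_Ioc] at hm'
      obtain ⟨⟨ha, hb⟩, c, hc⟩ := hm'
      subst hc
      have e : q * c / q = c := Nat.mul_div_cancel_left c (by omega)
      show q * c / q ∈ Ioc (n / q) ((n + N) / q)
      rw [e, mem_Ioc]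
      refine ⟨?_, ?_⟩
      · exact (Nat.div_lt_iff_lt_mul (by omega)).mpr (by rw [mul_comm]; exact ha)
      · exact (Nat.le_div_iff_mul_le (by omega)).mpr (by rw [mul_comm]; exact hb)
    · intro m hm m' hm' h
      have h1 : m ∈ (Ioc n (n + N)).filter (fun m => q ∣ m) := hm
      have h2 : m' ∈ (Ioc n (n + N)).filter (fun m => q ∣ m) := hm'
      rw [mem_filter] at h1 h2
      obtain ⟨c, hc⟩ := h1.2
      obtain ⟨c', hc'⟩ := h2.2
      subst hc
      subst hc'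
      have e : q * c / q = c := Nat.mul_div_cancel_left c (by omega)
      have e' : q * c' / q = c' := Nat.mul_div_cancel_left c' (by omega)
      have h3 : q * c / q = q * c' / q := h
      rw [e, e'] at h3
      rw [h3]
  rw [Nat.card_Ioc] at h1
  have h2 : (((n + N) / q - n / q : ℕ) : ℝ) ≤ N / q + 1 := by
    have h3 : n / q ≤ (n + N) / q := Nat.div_le_div_right (by omega)
    rw [Nat.cast_sub h3]
    have h4 : (((n + N) / q : ℕ) : ℝ) ≤ ((n + N : ℕ) : ℝ) / q := Nat.cast_div_le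
    have h5 : ((n : ℕ) : ℝ) / q - 1 ≤ ((n / q : ℕ) : ℝ) := by
      have h6 : n < (n / q + 1) * q := Nat.lt_mul_of_div_lt (Nat.lt_succ_self _) (by omega)
      have h7 : (n : ℝ) < (((n / q : ℕ) : ℝ) + 1) * q := by exact_mod_cast h6
      have h8 : (n : ℝ) / q < ((n / q : ℕ) : ℝ) + 1 := by
        rw [div_lt_iff₀ hq0]
        exact h7
      linarith
    push_cast at h4 ⊢
    rw [add_div] at h4
    linarith
  have h1' : (((Ioc n (n + N)).filter (fun m => q ∣ m)).card : ℝ) ≤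
      (((n + N) / q - n / q : ℕ) : ℝ) := by exact_mod_cast h1
  linarith

/-! ### the energy is between 0 and 2 -/

theorem ar_le (q N n : ℕ) (F : ℕ → ℝ) (hq : 1 ≤ q) (hqN : q ≤ N) (hF : ∀ m, F m ≤ 1) :
    ar q N n F ≤ 2 := by
  have hq0 : (0 : ℝ) < q := by exact_mod_cast hq
  have hN0 : (0 : ℝ) < N := by exact_mod_cast (by omega : 0 < N)
  have hqN' : (q : ℝ) ≤ N := by exact_mod_cast hqN
  unfold ar
  have h1 : ∑ m ∈ (Ioc n (n + N)).filter (fun m => q ∣ m), F m ≤ N / q + 1 := by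
    refine le_trans (Finset.sum_le_sum fun m _ => hF m) ?_
    rw [Finset.sum_const, nsmul_eq_mul, mul_one]
    exact card_mult q N n hq
  rw [div_le_iff₀ hN0]
  calc (∑ m ∈ (Ioc n (n + N)).filter (fun m => q ∣ m), F m) * q ≤ (N / q + 1) * q :=
        mul_le_mul_of_nonneg_right h1 hq0.le
    _ = N + q := by field_simp
    _ ≤ 2 * N := by linarith

theorem nm_nonneg (g : Ex) : 0 ≤ g.nm := Finset.sum_nonneg fun _ _ => norm_nonneg _

theorem J_le (th : ℝ) (lam : ℕ → ℝ) (q N n : ℕ) (g : Ex) (hth : 0 < th) (hq : 1 ≤ q) (hqN : q ≤ N)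
    (hl : ∀ m, |lam m| ≤ 1) : J th lam q N n g ≤ 2 := by
  unfold J
  have h1 : ar q N n (fun m => 2 * lam m * (g.f m).re - ‖g.f m‖ ^ 2) ≤ 2 := by
    refine ar_le q N n _ hq hqN fun m => ?_
    have h2 : (g.f m).re ^ 2 ≤ ‖g.f m‖ ^ 2 := by
      rw [← Complex.normSq_eq_norm_sq, Complex.normSq_apply]
      nlinarith [sq_nonneg (g.f m).im]
    have h3 : lam m ^ 2 ≤ 1 := by
      rw [← sq_abs]
      have := hl m
      have := abs_nonneg (lam m)
      nlinarith
    nlinarith [sq_nonneg (lam m - (g.f m).re)]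
  have h2 : 0 ≤ 2 * th * g.nm := mul_nonneg (by linarith) (nm_nonneg g)
  linarith

theorem J_bdd (th : ℝ) (lam : ℕ → ℝ) (q N n : ℕ) (hth : 0 < th) (hq : 1 ≤ q) (hqN : q ≤ N)
    (hl : ∀ m, |lam m| ≤ 1) : BddAbove (Set.range fun g : Ex => J th lam q N n g) := by
  refine ⟨2, ?_⟩
  rintro _ ⟨g, rfl⟩
  exact J_le th lam q N n g hth hq hqN hl

theorem En_le (th : ℝ) (lam : ℕ → ℝ) (q N n : ℕ) (hth : 0 < th) (hq : 1 ≤ q) (hqN : q ≤ N)
    (hl : ∀ m, |lam m| ≤ 1) : En th lam q N n ≤ 2 := by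
  have : Nonempty Ex := ⟨⟨0, fun _ => 0, fun _ => 0⟩⟩
  exact ciSup_le fun g => J_le th lam q N n g hth hq hqN hl

theorem En_nonneg (th : ℝ) (lam : ℕ → ℝ) (q N n : ℕ) (hth : 0 < th) (hq : 1 ≤ q) (hqN : q ≤ N)
    (hl : ∀ m, |lam m| ≤ 1) : 0 ≤ En th lam q N n := by
  have h := le_ciSup (J_bdd th lam q N n hth hq hqN hl) (⟨0, fun _ => 0, fun _ => 0⟩ : Ex)
  refine le_trans (le_of_eq ?_) h
  simp [J, ar, Ex.f, Ex.nm]

theorem J_le_En (th : ℝ) (lam : ℕ → ℝ) (q N n : ℕ) (g : Ex) (hth : 0 < th) (hq : 1 ≤ q)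
    (hqN : q ≤ N) (hl : ∀ m, |lam m| ≤ 1) : J th lam q N n g ≤ En th lam q N n :=
  le_ciSup (J_bdd th lam q N n hth hq hqN hl) g

/-! ### pieces -/

theorem ar_split (q L n : ℕ) (F : ℕ → ℝ) (hL : 1 ≤ L) : ∀ P : ℕ, 1 ≤ P →
    ar q (P * L) n F = (∑ j ∈ range P, ar q L (n + j * L) F) / P := by
  have hL0 : (0 : ℝ) < L := by exact_mod_cast hL
  have hs : ∀ P : ℕ, ∑ m ∈ (Ioc n (n + P * L)).filter (fun m => q ∣ m), F m =
      ∑ j ∈ range P, ∑ m ∈ (Ioc (n + j * L) (n + j * L + L)).filter (fun m => q ∣ m), F m := by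
    intro P
    induction P with
    | zero => simp
    | succ P ih =>
      rw [Finset.sum_range_succ, ← ih, Finset.sum_filter, Finset.sum_filter, Finset.sum_filter]
      have e : n + (P + 1) * L = n + P * L + L := by ring
      rw [e]
      exact (Finset.sum_Ioc_consecutive _ (by omega) (by omega)).symm
  intro P hP
  have hP0 : (0 : ℝ) < P := by exact_mod_cast hP
  unfold ar
  rw [hs P, Finset.sum_div, Finset.sum_mul, Finset.sum_div]
  refine Finset.sum_congr rfl fun j _ => ?_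
  push_cast
  field_simp

theorem J_split (th : ℝ) (lam : ℕ → ℝ) (q L n P : ℕ) (g : Ex) (hL : 1 ≤ L) (hP : 1 ≤ P) :
    J th lam q (P * L) n g = (∑ j ∈ range P, J th lam q L (n + j * L) g) / P := by
  have hP0 : (0 : ℝ) < P := by exact_mod_cast hP
  unfold J
  rw [ar_split q L n _ hL P hP, Finset.sum_sub_distrib, Finset.sum_const, card_range, nsmul_eq_mul,
    sub_div, mul_div_cancel_left₀ _ hP0.ne']

theorem En_split (th : ℝ) (lam : ℕ → ℝ) (q L n P : ℕ) (hth : 0 < th) (hq : 1 ≤ q) (hqL : q ≤ L)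
    (hP : 1 ≤ P) (hl : ∀ m, |lam m| ≤ 1) :
    En th lam q (P * L) n ≤ (∑ j ∈ range P, En th lam q L (n + j * L)) / P := by
  have : Nonempty Ex := ⟨⟨0, fun _ => 0, fun _ => 0⟩⟩
  have hP0 : (0 : ℝ) < P := by exact_mod_cast hP
  refine ciSup_le fun g => ?_
  rw [J_split th lam q L n P g (by omega) hP]
  refine div_le_div_of_nonneg_right (Finset.sum_le_sum fun j _ => ?_) hP0.le
  exact J_le_En th lam q L _ g hth hq hqL hl

/-! ### logarithmic sums -/

/-- the harmonic sum -/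
noncomputable def hs (N : ℕ) : ℝ := ∑ n ∈ Icc 1 N, 1 / (n : ℝ)

theorem hs_eq (N : ℕ) : hs N = (harmonic N : ℝ) := by
  induction N with
  | zero => simp [hs]
  | succ N ih =>
    rw [harmonic_succ]
    push_cast
    rw [← ih]
    unfold hs
    rw [Finset.sum_Icc_succ_top (by omega)]
    push_cast
    rw [one_div]

theorem hs_le (N : ℕ) (_hN : 1 ≤ N) : hs N ≤ 1 + Real.log N := by
  rw [hs_eq]
  exact harmonic_le_one_add_log N

theorem hs_add (X a : ℕ) : hs (X + a) = hs X + ∑ i ∈ Icc 1 a, 1 / ((X : ℝ) + i) := by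
  induction a with
  | zero => simp [hs]
  | succ a ih =>
    have e : hs (X + (a + 1)) = hs (X + a) + 1 / ((X : ℝ) + (a + 1 : ℕ)) := by
      unfold hs
      rw [← add_assoc, Finset.sum_Icc_succ_top (by omega)]
      push_cast
      ring
    rw [e, ih, Finset.sum_Icc_succ_top (by omega)]
    ring

theorem hs_mono (X a : ℕ) : hs X ≤ hs (X + a) := by
  rw [hs_add]
  have : 0 ≤ ∑ i ∈ Icc 1 a, 1 / ((X : ℝ) + i) := Finset.sum_nonneg fun i _ => by positivity
  linarith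

theorem hs_sub (X a : ℕ) : hs (X + a) ≤ hs X + hs a := by
  rw [hs_add]
  have : ∑ i ∈ Icc 1 a, 1 / ((X : ℝ) + i) ≤ hs a := by
    refine Finset.sum_le_sum fun i hi => ?_
    have h1 : (1 : ℝ) ≤ i := by exact_mod_cast (mem_Icc.mp hi).1
    exact one_div_le_one_div_of_le (by linarith) (by
      have : (0 : ℝ) ≤ X := Nat.cast_nonneg _
      linarith)
  linarith

theorem lg_mono (X : ℕ) (f g : ℕ → ℝ) (h : ∀ n, f n ≤ g n) : EB.lg X f ≤ EB.lg X g := by
  unfold Pool.Agent.H93.EB.lg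
  exact Finset.sum_le_sum fun n _ => div_le_div_of_nonneg_right (h n) (Nat.cast_nonneg _)

theorem lg_nonneg (X : ℕ) (f : ℕ → ℝ) (h : ∀ n, 0 ≤ f n) : 0 ≤ EB.lg X f := by
  unfold Pool.Agent.H93.EB.lg
  exact Finset.sum_nonneg fun n _ => div_nonneg (h n) (Nat.cast_nonneg _)

theorem lg_le (X : ℕ) (f : ℕ → ℝ) (B : ℝ) (h : ∀ n, f n ≤ B) : EB.lg X f ≤ B * hs X := by
  unfold Pool.Agent.H93.EB.lg hs
  rw [Finset.mul_sum]
  refine Finset.sum_le_sum fun n _ => ?_
  rw [mul_one_div]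
  exact div_le_div_of_nonneg_right (h n) (Nat.cast_nonneg _)

/-- shifts of logarithmic sums -/
theorem lg_shift (X a : ℕ) (f : ℕ → ℝ) (B : ℝ) (h0 : ∀ n, 0 ≤ f n) (h1 : ∀ n, f n ≤ B) :
    EB.lg X (fun n => f (n + a)) ≤ EB.lg X f + 2 * B * hs a := by
  have hB : 0 ≤ B := (h0 0).trans (h1 0)
  have e1 : EB.lg X (fun n => f (n + a)) ≤ (∑ n ∈ Icc 1 X, f (n + a) / ((n + a : ℕ) : ℝ)) +
      B * ∑ n ∈ Icc 1 X, (1 / (n : ℝ) - 1 / ((a : ℝ) + n)) := by
    unfold Pool.Agent.H93.EB.lg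
    rw [Finset.mul_sum, ← Finset.sum_add_distrib]
    refine Finset.sum_le_sum fun n hn => ?_
    have hn1 : (1 : ℝ) ≤ n := by exact_mod_cast (mem_Icc.mp hn).1
    have ha0 : (0 : ℝ) ≤ a := Nat.cast_nonneg _
    have e : f (n + a) / (n : ℝ) = f (n + a) / ((n + a : ℕ) : ℝ) +
        f (n + a) * (1 / (n : ℝ) - 1 / ((a : ℝ) + n)) := by
      push_cast
      have h2 : (n : ℝ) + a ≠ 0 := by positivity
      have h3 : (a : ℝ) + n ≠ 0 := by positivity
      rw [add_comm (n : ℝ) (a : ℝ)]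
      field_simp
      ring
    rw [e]
    have h2 : 0 ≤ 1 / (n : ℝ) - 1 / ((a : ℝ) + n) := by
      have := one_div_le_one_div_of_le (by linarith : (0 : ℝ) < n) (by linarith : (n : ℝ) ≤ a + n)
      linarith
    have h3 := mul_le_mul_of_nonneg_right (h1 (n + a)) h2
    linarith
  have e2 : ∑ n ∈ Icc 1 X, f (n + a) / ((n + a : ℕ) : ℝ) ≤ EB.lg X f + B * hs a := by
    have h2 : ∑ n ∈ Icc 1 X, f (n + a) / ((n + a : ℕ) : ℝ) ≤
        ∑ n ∈ Icc 1 (X + a), f n / (n : ℝ) := by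
      have e : ∑ n ∈ Icc 1 X, f (n + a) / ((n + a : ℕ) : ℝ) =
          ∑ n ∈ Icc (1 + a) (X + a), f n / (n : ℝ) := by
        rw [← Finset.map_add_right_Icc, Finset.sum_map]
        rfl
      rw [e]
      refine Finset.sum_le_sum_of_subset_of_nonneg (fun n hn => ?_) (fun n _ _ =>
        div_nonneg (h0 n) (Nat.cast_nonneg _))
      rw [mem_Icc] at hn ⊢
      omega
    have h3 : ∀ b : ℕ, ∑ n ∈ Icc 1 (X + b), f n / (n : ℝ) ≤
        EB.lg X f + B * ∑ i ∈ Icc 1 b, 1 / ((X : ℝ) + i) := by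
      intro b
      induction b with
      | zero =>
        unfold Pool.Agent.H93.EB.lg
        simp
      | succ b ih =>
        rw [← add_assoc, Finset.sum_Icc_succ_top (by omega), Finset.sum_Icc_succ_top (by omega),
          mul_add]
        have h4 : f (X + b + 1) / ((X + b + 1 : ℕ) : ℝ) ≤ B * (1 / ((X : ℝ) + (b + 1 : ℕ))) := by
          rw [mul_one_div]
          have e : ((X + b + 1 : ℕ) : ℝ) = (X : ℝ) + (b + 1 : ℕ) := by push_cast; ring
          rw [e]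
          exact div_le_div_of_nonneg_right (h1 _) (by positivity)
        linarith
    have h5 : ∑ i ∈ Icc 1 a, 1 / ((X : ℝ) + i) ≤ hs a := by
      have := hs_add X a
      have := hs_sub X a
      linarith
    have h6 := mul_le_mul_of_nonneg_left h5 hB
    linarith [h3 a]
  have e3 : ∑ n ∈ Icc 1 X, (1 / (n : ℝ) - 1 / ((a : ℝ) + n)) ≤ hs a := by
    rw [Finset.sum_sub_distrib]
    have h2 := hs_add a X
    have h3 := hs_mono X a
    rw [add_comm X a] at h3
    have h4 : ∑ n ∈ Icc 1 X, 1 / (n : ℝ) = hs X := rfl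
    linarith
  have e4 := mul_le_mul_of_nonneg_left e3 hB
  linarith

end Pool.Agent.H84.GS
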