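import Pool.Agent.H84.GS.MNG
import Pool.Agent.H72.GS2.Targets

/-!
# Theorem (G), MP_c59857_nt: the energy does not increase with the length, arbitrary lengths
-/

set_option autoImplicit false

namespace Pool.Agent.H84.GS

open Finset Pool.Agent.H6.N4D Pool.Agent.H93.GS
open Pool.Agent.H93 (EB.lg)

theorem val_le_one (x : ℝ) (z : ℂ) (hx : |x| ≤ 1) : 2 * x * z.re - ‖z‖ ^ 2 ≤ 1 := by
  have h2 : z.re ^ 2 ≤ ‖z‖ ^ 2 := by
    rw [← Complex.normSq_eq_norm_sq, Complex.normSq_apply]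
    nlinarith [sq_nonneg z.im]
  have h3 : x ^ 2 ≤ 1 := by
    rw [← sq_abs]
    have := abs_nonneg x
    nlinarith
  nlinarith [sq_nonneg (x - z.re)]

/-- A window of length `H` against its first `N` numbers. -/
theorem En_cut (th : ℝ) (lam : ℕ → ℝ) (N r n : ℕ) (hth : 0 < th) (hN : 1 ≤ N)
    (hl : ∀ m, |lam m| ≤ 1) :
    En th lam 1 (N + r) n ≤ En th lam 1 N n + (r : ℝ) / ((N + r : ℕ) : ℝ) := by
  have : Nonempty Ex := ⟨⟨0, fun _ => 0, fun _ => 0⟩⟩
  have hN0 : (0 : ℝ) < N := by exact_mod_cast hN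
  have hr0 : (0 : ℝ) ≤ r := Nat.cast_nonneg _
  have hH0 : (0 : ℝ) < ((N + r : ℕ) : ℝ) := by
    push_cast
    linarith
  refine ciSup_le fun g => ?_
  have h1 := J_le_En th lam 1 N n g hth le_rfl hN hl
  have h0 := En_nonneg th lam 1 N n hth le_rfl hN hl
  have hnm : 0 ≤ 2 * th * g.nm := mul_nonneg (by linarith) (nm_nonneg g)
  unfold J at h1 ⊢
  unfold ar at h1 ⊢
  have hf : ∀ a b : ℕ, (Ioc a b).filter (fun m => 1 ∣ m) = Ioc a b := fun a b =>
    Finset.filter_true_of_mem fun m _ => one_dvd m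
  rw [hf] at h1 ⊢
  beta_reduce at h1 ⊢
  have hs : ∑ m ∈ Ioc n (n + (N + r)), (2 * lam m * (g.f m).re - ‖g.f m‖ ^ 2) =
      ∑ m ∈ Ioc n (n + N), (2 * lam m * (g.f m).re - ‖g.f m‖ ^ 2) +
      ∑ m ∈ Ioc (n + N) (n + (N + r)), (2 * lam m * (g.f m).re - ‖g.f m‖ ^ 2) :=
    (Finset.sum_Ioc_consecutive _ (by omega) (by omega)).symm
  have h2 : ∑ m ∈ Ioc (n + N) (n + (N + r)), (2 * lam m * (g.f m).re - ‖g.f m‖ ^ 2) ≤ (r : ℝ) := by
    refine le_trans (Finset.sum_le_sum fun m _ => val_le_one (lam m) (g.f m) (hl m)) ?_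
    rw [Finset.sum_const, Nat.card_Ioc, nsmul_eq_mul, mul_one]
    have e : n + (N + r) - (n + N) = r := by omega
    rw [e]
  rw [hs]
  set S := ∑ m ∈ Ioc n (n + N), (2 * lam m * (g.f m).re - ‖g.f m‖ ^ 2) with hS
  set T := ∑ m ∈ Ioc (n + N) (n + (N + r)), (2 * lam m * (g.f m).re - ‖g.f m‖ ^ 2) with hT
  set E := En th lam 1 N n with hE
  have h3 : S ≤ (E + 2 * th * g.nm) * N := by
    have h4 : S * ((1 : ℕ) : ℝ) / N ≤ E + 2 * th * g.nm := by linarith
    rw [div_le_iff₀ hN0] at h4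
    push_cast at h4
    linarith
  have h5 : (S + T) * ((1 : ℕ) : ℝ) / ((N + r : ℕ) : ℝ) ≤
      E + 2 * th * g.nm + r / ((N + r : ℕ) : ℝ) := by
    rw [div_le_iff₀ hH0]
    have e : (E + 2 * th * g.nm + (r : ℝ) / ((N + r : ℕ) : ℝ)) * ((N + r : ℕ) : ℝ) =
        (E + 2 * th * g.nm) * N + (E + 2 * th * g.nm) * r + r := by
      rw [add_mul (E + 2 * th * g.nm), div_mul_cancel₀ _ hH0.ne']
      push_cast
      ring
    rw [e]
    push_cast
    have h6 : 0 ≤ (E + 2 * th * g.nm) * r := mul_nonneg (by linarith) hr0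
    linarith
  linarith

theorem pf_MNX : Pool.Agent.H72.GS2.T_MNX := by
  intro th hth _
  refine ⟨4, by norm_num, ?_⟩
  intro X N H lam hX hl hN hNH
  have hN0 : (0 : ℝ) < N := by exact_mod_cast hN
  have hH0 : (0 : ℝ) < H := by exact_mod_cast (by omega : 0 < H)
  have hX3 : (3 : ℝ) ≤ X := by exact_mod_cast hX
  have hlX : 1 ≤ Real.log X := by
    have h1 : Real.exp 1 ≤ X := by
      have := Real.exp_one_lt_d9
      linarith
    exact (Real.le_log_iff_exp_le (by linarith)).mpr h1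
  set P := H / N with hP
  have hP1 : 1 ≤ P := (Nat.one_le_div_iff hN).mpr hNH
  set r := H % N with hr
  have hHe : P * N + r = H := by
    rw [hP, hr, mul_comm]
    exact Nat.div_add_mod H N
  have hrN : r ≤ N := (Nat.mod_lt _ hN).le
  have h1 : EB.lg X (fun n => En th lam 1 H n) ≤
      EB.lg X (fun n => En th lam 1 (P * N) n + (N : ℝ) / H) := by
    refine lg_mono X _ _ fun n => ?_
    have h2 := En_cut th lam (P * N) r n hth (Nat.mul_pos hP1 hN) hl
    rw [hHe] at h2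
    have h3 : (r : ℝ) / H ≤ N / H := div_le_div_of_nonneg_right (by exact_mod_cast hrN) hH0.le
    linarith
  have h2 : EB.lg X (fun n => En th lam 1 (P * N) n + (N : ℝ) / H) =
      EB.lg X (fun n => En th lam 1 (P * N) n) + EB.lg X (fun _ => (N : ℝ) / H) := by
    unfold Pool.Agent.H93.EB.lg
    rw [← Finset.sum_add_distrib]
    exact Finset.sum_congr rfl fun n _ => add_div _ _ _
  have h3 : EB.lg X (fun _ => (N : ℝ) / H) ≤ (N : ℝ) / H * hs X := lg_le X _ _ fun _ => le_rfl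
  have h4 := hs_le X (by omega)
  have h5 : (N : ℝ) / H * hs X ≤ N / H * (2 * Real.log X) :=
    mul_le_mul_of_nonneg_left (by linarith) (by positivity)
  have hlH : 0 ≤ Real.log H := Real.log_nonneg (by exact_mod_cast (by omega : 1 ≤ H))
  have h6 := lg_En_mul X P N 1 th lam hth hl hP1 le_rfl hN (Real.log H + 1) (by
    intro j hj
    rcases Nat.eq_zero_or_pos (j * N) with h0 | h0
    · rw [h0]
      have : hs 0 = 0 := by simp [hs]
      rw [this]
      linarith
    · have h7 := hs_le (j * N) h0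
      have h8 : j * N ≤ H := by
        have : j * N ≤ P * N := Nat.mul_le_mul_right _ hj.le
        omega
      have h9 : ((j * N : ℕ) : ℝ) ≤ H := by exact_mod_cast h8
      have h10 : (0 : ℝ) < ((j * N : ℕ) : ℝ) := by exact_mod_cast h0
      have h11 := Real.log_le_log h10 h9
      linarith)
  have h7 : 0 ≤ (N : ℝ) / H * Real.log X := by positivity
  linarith

end Pool.Agent.H84.GS
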