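import Pool.Agent.H93.EB.Defs
import Mathlib.NumberTheory.Primorial

/-!
# Theorem (G), MP_c59857_nt: primes of dyadic intervals, the levels of a prime, telescoping sums
-/

set_option autoImplicit false

namespace Pool.Agent.H84.GS

open Finset
open Pool.Agent.H93 (EB.QQ)

/-- the primes of a dyadic interval -/
def DD (c : ℕ) : Finset ℕ := (Ioc (2 ^ (c - 1)) (2 ^ c)).filter Nat.Prime

theorem DD_card (c : ℕ) : (c - 1) * (DD c).card ≤ 2 * 2 ^ c := by
  have h1 : (2 ^ (c - 1)) ^ (DD c).card ≤ ∏ q ∈ DD c, q := by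
    rw [← Finset.prod_const]
    refine Finset.prod_le_prod' fun q hq => ?_
    unfold DD at hq
    rw [mem_filter, mem_Ioc] at hq
    exact hq.1.1.le
  have h2 : ∏ q ∈ DD c, q ≤ primorial (2 ^ c) := by
    unfold primorial
    refine Finset.prod_le_prod_of_subset_of_one_le' (fun q hq => ?_) fun q hq _ => ?_
    · unfold DD at hq
      rw [mem_filter, mem_Ioc] at hq
      rw [mem_filter, mem_range]
      exact ⟨by omega, hq.2⟩
    · rw [mem_filter] at hq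
      exact hq.2.one_lt.le
  have h3 := primorial_le_four_pow (2 ^ c)
  have h4 : 2 ^ ((c - 1) * (DD c).card) ≤ 2 ^ (2 * 2 ^ c) := by
    rw [pow_mul, pow_mul]
    exact (h1.trans h2).trans h3
  exact (Nat.pow_le_pow_iff_right (by norm_num)).mp h4

theorem DD_sum (c : ℕ) (hc : 2 ≤ c) : ∑ q ∈ DD c, 1 / (q : ℝ) ≤ 4 / ((c : ℝ) - 1) := by
  have hc1 : (0 : ℝ) < (c : ℝ) - 1 := by
    have : (2 : ℝ) ≤ c := by exact_mod_cast hc
    linarith
  have h0 : (0 : ℝ) < 2 ^ (c - 1) := by positivity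
  have h1 : ∑ q ∈ DD c, 1 / (q : ℝ) ≤ (DD c).card * (1 / 2 ^ (c - 1)) := by
    rw [← nsmul_eq_mul, ← Finset.sum_const]
    refine Finset.sum_le_sum fun q hq => ?_
    unfold DD at hq
    rw [mem_filter, mem_Ioc] at hq
    refine one_div_le_one_div_of_le h0 ?_
    exact_mod_cast hq.1.1.le
  have h2 : ((c : ℝ) - 1) * (DD c).card ≤ 2 * 2 ^ c := by
    have h := DD_card c
    have h' : (((c - 1) * (DD c).card : ℕ) : ℝ) ≤ ((2 * 2 ^ c : ℕ) : ℝ) := by exact_mod_cast h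
    push_cast [Nat.cast_sub (by omega : 1 ≤ c)] at h'
    exact h'
  have e : (2 : ℝ) ^ c = 2 * 2 ^ (c - 1) := by
    rw [← pow_succ']
    congr 1
    omega
  refine h1.trans ?_
  rw [le_div_iff₀ hc1, mul_one_div, div_mul_eq_mul_div, div_le_iff₀ h0]
  rw [e] at h2
  linarith

theorem tele (a : ℕ) (ha : 1 ≤ a) (b : ℕ) :
    ∑ c ∈ Ioc a b, 1 / (((c : ℝ) - 1) * c) ≤ 1 / a := by
  have ha0 : (0 : ℝ) < a := by exact_mod_cast ha
  rcases lt_or_ge b a with hb | hb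
  · rw [Finset.Ioc_eq_empty (by omega)]
    rw [Finset.sum_empty]
    positivity
  · have h : ∑ c ∈ Ioc a b, 1 / (((c : ℝ) - 1) * c) ≤ 1 / a - 1 / b := by
      obtain ⟨d, rfl⟩ := Nat.exists_eq_add_of_le hb
      induction d with
      | zero => simp
      | succ d ih =>
        rw [← add_assoc, Finset.sum_Ioc_succ_top (by omega)]
        have h1 := ih (by omega)
        have hd : (0 : ℝ) < ((a + d : ℕ) : ℝ) := by exact_mod_cast (by omega : 0 < a + d)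
        have e : 1 / ((((a + d + 1 : ℕ) : ℝ) - 1) * ((a + d + 1 : ℕ) : ℝ)) =
            1 / ((a + d : ℕ) : ℝ) - 1 / ((a + d + 1 : ℕ) : ℝ) := by
          push_cast at hd ⊢
          have h2 : (a : ℝ) + d + 1 ≠ 0 := by positivity
          have h3 : (a : ℝ) + d ≠ 0 := hd.ne'
          have h4 : (a : ℝ) + d + 1 - 1 = a + d := by ring
          rw [h4]
          field_simp
          ring
        rw [e]
        linarith
    have hb0 : (0 : ℝ) ≤ 1 / (b : ℝ) := by positivity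
    linarith

/-- the levels of a prime -/
theorem mem_QQ (q m : ℕ) (hq : q.Prime) :
    q ∈ EB.QQ m ↔ 200 * Nat.clog 2 q ≤ m ∧ m < 400 * Nat.clog 2 q := by
  unfold Pool.Agent.H93.EB.QQ
  rw [mem_filter, mem_Ioc]
  have h1 : q ≤ 2 ^ (m / 200) ↔ Nat.clog 2 q ≤ m / 200 :=
    (Nat.clog_le_iff_le_pow (by norm_num)).symm
  have h2 : 2 ^ (m / 400) < q ↔ m / 400 < Nat.clog 2 q :=
    (Nat.lt_clog_iff_pow_lt (by norm_num)).symm
  rw [h1, h2]
  constructor
  · rintro ⟨⟨ha, hb⟩, _⟩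
    constructor <;> omega
  · rintro ⟨ha, hb⟩
    exact ⟨⟨by omega, by omega⟩, hq⟩

/-- shifted sums with the weight `1 / m` -/
theorem shift_sum (u : ℕ → ℝ) (B : ℝ) (p m₁ m₂ : ℕ) (hp : p < m₁)
    (h0 : ∀ j, m₁ - p ≤ j → 0 ≤ u j) (h1 : ∀ j, m₁ - p ≤ j → u j ≤ B) :
    ∑ m ∈ Icc m₁ m₂, 1 / (m : ℝ) * (u (m - p) - u m) ≤ p * B / ((m₁ - p : ℕ) : ℝ) := by
  have hB : 0 ≤ B := (h0 _ le_rfl).trans (h1 _ le_rfl)
  have hd : (0 : ℝ) < ((m₁ - p : ℕ) : ℝ) := by exact_mod_cast (by omega : 0 < m₁ - p)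
  have key : ∀ d : ℕ, ∑ m ∈ Ico m₁ (m₁ + d), 1 / (m : ℝ) * (u (m - p) - u m) +
      ∑ j ∈ Ico (m₁ + d - p) (m₁ + d), 1 / (j : ℝ) * u j ≤
      ∑ j ∈ Ico (m₁ - p) m₁, 1 / (j : ℝ) * u j := by
    intro d
    induction d with
    | zero => simp
    | succ d ih =>
      have e1 : ∑ m ∈ Ico m₁ (m₁ + (d + 1)), 1 / (m : ℝ) * (u (m - p) - u m) =
          ∑ m ∈ Ico m₁ (m₁ + d), 1 / (m : ℝ) * (u (m - p) - u m) +
          1 / ((m₁ + d : ℕ) : ℝ) * (u (m₁ + d - p) - u (m₁ + d)) := by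
        rw [← add_assoc, Finset.sum_Ico_succ_top (by omega)]
      have e2 : ∑ j ∈ Ico (m₁ + (d + 1) - p) (m₁ + (d + 1)), 1 / (j : ℝ) * u j +
          1 / ((m₁ + d - p : ℕ) : ℝ) * u (m₁ + d - p) =
          ∑ j ∈ Ico (m₁ + d - p) (m₁ + d), 1 / (j : ℝ) * u j +
          1 / ((m₁ + d : ℕ) : ℝ) * u (m₁ + d) := by
        rw [← Finset.sum_Ico_succ_top (by omega : m₁ + d - p ≤ m₁ + d) (fun j : ℕ => 1 / (j : ℝ) * u j)]
        rw [Finset.sum_eq_sum_Ico_succ_bot (by omega : m₁ + d - p < m₁ + d + 1)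
          (fun j : ℕ => 1 / (j : ℝ) * u j)]
        have e3 : m₁ + (d + 1) - p = m₁ + d - p + 1 := by omega
        rw [e3, ← add_assoc]
        ring
      have h2 : 1 / ((m₁ + d : ℕ) : ℝ) * u (m₁ + d - p) ≤
          1 / ((m₁ + d - p : ℕ) : ℝ) * u (m₁ + d - p) := by
        refine mul_le_mul_of_nonneg_right ?_ (h0 _ (by omega))
        refine one_div_le_one_div_of_le (by exact_mod_cast (by omega : 0 < m₁ + d - p)) ?_
        exact_mod_cast (by omega : m₁ + d - p ≤ m₁ + d)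
      rw [e1]
      have e4 : 1 / ((m₁ + d : ℕ) : ℝ) * (u (m₁ + d - p) - u (m₁ + d)) =
          1 / ((m₁ + d : ℕ) : ℝ) * u (m₁ + d - p) - 1 / ((m₁ + d : ℕ) : ℝ) * u (m₁ + d) := by ring
      rw [e4]
      linarith
  have hR : ∑ j ∈ Ico (m₁ - p) m₁, 1 / (j : ℝ) * u j ≤ p * B / ((m₁ - p : ℕ) : ℝ) := by
    have h2 : ∑ j ∈ Ico (m₁ - p) m₁, 1 / (j : ℝ) * u j ≤
        ∑ _j ∈ Ico (m₁ - p) m₁, 1 / ((m₁ - p : ℕ) : ℝ) * B := by
      refine Finset.sum_le_sum fun j hj => ?_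
      rw [mem_Ico] at hj
      refine mul_le_mul ?_ (h1 j hj.1) (h0 j hj.1) (by positivity)
      exact one_div_le_one_div_of_le hd (by exact_mod_cast hj.1)
    rw [Finset.sum_const, Nat.card_Ico, nsmul_eq_mul] at h2
    have e : m₁ - (m₁ - p) = p := by omega
    rw [e] at h2
    refine h2.trans (le_of_eq ?_)
    ring
  rcases lt_or_ge m₂ m₁ with h | h
  · rw [Finset.Icc_eq_empty (by omega), Finset.sum_empty]
    positivity
  · have hk := key (m₂ + 1 - m₁)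
    have e : m₁ + (m₂ + 1 - m₁) = m₂ + 1 := by omega
    rw [e] at hk
    have e2 : Ico m₁ (m₂ + 1) = Icc m₁ m₂ := by
      ext x
      simp only [mem_Ico, mem_Icc]
      omega
    rw [e2] at hk
    have h3 : 0 ≤ ∑ j ∈ Ico (m₂ + 1 - p) (m₂ + 1), 1 / (j : ℝ) * u j := by
      refine Finset.sum_nonneg fun j hj => ?_
      rw [mem_Ico] at hj
      exact mul_nonneg (by positivity) (h0 j (by omega))
    linarith

end Pool.Agent.H84.GS
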