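import Pool.Agent.H6.GS2.Bas
import Pool.Agent.H84.GS.Dy

/-!
# Theorem (G), MP_c59857_nt: mean squares on the multiples of the primes of a level
-/

set_option autoImplicit false

namespace Pool.Agent.H84.GS

open Finset Pool.Agent.H6.N4D Pool.Agent.H93 Pool.Agent.H93.GS Pool.Agent.H6.GS2

/-- the prime `q` is resonant for `δ` -/
def Res (N q : ℕ) (δ : ℝ) : Prop :=
  ∃ b : ℤ, ¬ ((q : ℤ) ∣ b) ∧ nd (δ - (b : ℝ) / q) ≤ (N : ℝ) ^ (-(1 / 2) : ℝ)

theorem sq_rpow (N : ℕ) (hN : 1 ≤ N) :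
    ((N : ℝ) ^ (-(1 / 2) : ℝ)) ^ 2 = 1 / N := by
  have hN0 : (0 : ℝ) < N := by exact_mod_cast hN
  rw [← Real.rpow_natCast, ← Real.rpow_mul hN0.le]
  norm_num
  rw [Real.rpow_neg_one]

theorem res_uniq (m N q q' : ℕ) (δ : ℝ) (hm : 400 ≤ m) (hN : 2 ^ m ≤ N) (hq : q ∈ EB.QQ m)
    (hq' : q' ∈ EB.QQ m) (h : Res N q δ) (h' : Res N q' δ) : q = q' := by
  by_contra hne
  unfold EB.QQ at hq hq'
  rw [mem_filter, mem_Ioc] at hq hq'
  obtain ⟨b, hb, h1⟩ := h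
  obtain ⟨b', hb', h2⟩ := h'
  have hN1 : 1 ≤ N := le_trans Nat.one_le_two_pow hN
  have hN0 : (0 : ℝ) < N := by exact_mod_cast hN1
  set s := (N : ℝ) ^ (-(1 / 2) : ℝ) with hs
  have hs0 : 0 ≤ s := Real.rpow_nonneg hN0.le _
  have hq0 : (0 : ℝ) < q := by exact_mod_cast hq.2.pos
  have hq0' : (0 : ℝ) < q' := by exact_mod_cast hq'.2.pos
  have h3 : nd ((b : ℝ) / q - (b' : ℝ) / q') ≤ 2 * s := by
    have h4 := nd_tri ((b : ℝ) / q) δ ((b' : ℝ) / q')
    rw [nd_sub_comm ((b : ℝ) / q) δ] at h4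
    linarith
  obtain ⟨k, hk⟩ := exists_int ((b : ℝ) / q - (b' : ℝ) / q')
  have e : (b : ℝ) / q - (b' : ℝ) / q' - k = ((b * q' - b' * q - k * q * q' : ℤ) : ℝ) / (q * q') := by
    push_cast
    field_simp
  have hz : b * q' - b' * q - k * q * q' ≠ 0 := by
    intro h0
    have h5 : (q : ℤ) ∣ b * q' := ⟨b' + k * q', by linarith⟩
    have hp : Prime (q : ℤ) := Nat.prime_iff_prime_int.mp hq.2
    rcases hp.dvd_or_dvd h5 with h6 | h6
    · exact hb h6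
    · have h7 : q ∣ q' := by exact_mod_cast h6
      exact hne ((Nat.prime_dvd_prime_iff_eq hq.2 hq'.2).mp h7)
  have h8 : 1 / ((q : ℝ) * q') ≤ 2 * s := by
    refine le_trans ?_ h3
    rw [← hk, e, abs_div, abs_of_pos (mul_pos hq0 hq0')]
    refine div_le_div_of_nonneg_right ?_ (mul_pos hq0 hq0').le
    exact_mod_cast Int.one_le_abs hz
  have h9 : (N : ℝ) ≤ 4 * ((q : ℝ) * q') ^ 2 := by
    have h10 : (1 / ((q : ℝ) * q')) ^ 2 ≤ (2 * s) ^ 2 :=
      pow_le_pow_left₀ (by positivity) h8 2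
    rw [mul_pow, sq_rpow N hN1, div_pow, one_pow, mul_one_div,
      div_le_div_iff₀ (by positivity) hN0] at h10
    linarith
  have h10 : N ≤ 4 * (q * q') ^ 2 := by exact_mod_cast h9
  have h11 : q * q' ≤ 2 ^ (m / 200) * 2 ^ (m / 200) := Nat.mul_le_mul hq.1.2 hq'.1.2
  have h12 : 2 ^ m ≤ 2 ^ (2 + 4 * (m / 200)) := by
    calc 2 ^ m ≤ N := hN
      _ ≤ 4 * (q * q') ^ 2 := h10
      _ ≤ 4 * (2 ^ (m / 200) * 2 ^ (m / 200)) ^ 2 :=
        Nat.mul_le_mul_left _ (Nat.pow_le_pow_left h11 2)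
      _ = 2 ^ (2 + 4 * (m / 200)) := by
        rw [pow_add, pow_mul', mul_pow, ← pow_add]
        norm_num
  have h13 := (Nat.pow_le_pow_iff_right (by norm_num)).mp h12
  omega

theorem res_sum (m N : ℕ) (δ : ℝ) (hm : 400 ≤ m) (hN : 2 ^ m ≤ N) :
    ∑ q ∈ EB.QQ m, 1 / (q : ℝ) * EB.ind (Res N q δ) ≤ (1 / 2) ^ (m / 400) := by
  by_cases h : ∃ q ∈ EB.QQ m, Res N q δ
  · obtain ⟨q₀, hq₀, hr⟩ := h
    rw [Finset.sum_eq_single q₀ (fun q hq hne => ?_) (fun h => absurd hq₀ h)]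
    · have e : EB.ind (Res N q₀ δ) = 1 := by
        unfold EB.ind
        rw [if_pos hr]
      rw [e, mul_one]
      unfold EB.QQ at hq₀
      rw [mem_filter, mem_Ioc] at hq₀
      rw [div_pow, one_pow]
      refine one_div_le_one_div_of_le (by positivity) ?_
      exact_mod_cast hq₀.1.1.le
    · have e : EB.ind (Res N q δ) = 0 := by
        unfold EB.ind
        rw [if_neg fun h' => hne (res_uniq m N q q₀ δ hm hN hq hq₀ h' hr)]
      rw [e, mul_zero]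
  · rw [Finset.sum_eq_zero fun q hq => ?_]
    · positivity
    · have e : EB.ind (Res N q δ) = 0 := by
        unfold EB.ind
        rw [if_neg fun h' => h ⟨q, hq, h'⟩]
      rw [e, mul_zero]

theorem ind_le_sum {ι : Type} (s : Finset ι) (p : Prop) (r : ι → Prop) (h : p → ∃ i ∈ s, r i) :
    EB.ind p ≤ ∑ i ∈ s, EB.ind (r i) := by
  have h0 : ∀ x : Prop, 0 ≤ EB.ind x := by
    intro x
    unfold EB.ind
    split_ifs <;> norm_num
  by_cases hp : p
  · obtain ⟨i, hi, hr⟩ := h hp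
    have e : EB.ind p = EB.ind (r i) := by
      unfold EB.ind
      rw [if_pos hp, if_pos hr]
    rw [e]
    exact Finset.single_le_sum (fun j _ => h0 (r j)) hi
  · have e : EB.ind p = 0 := by
      unfold EB.ind
      rw [if_neg hp]
    rw [e]
    exact Finset.sum_nonneg fun i _ => h0 _

theorem exc_sum (m N r : ℕ) (γ : ℕ → ℝ) (hm : 400 ≤ m) (hN : 2 ^ m ≤ N) :
    ∑ q ∈ EB.QQ m, 1 / (q : ℝ) * EB.ind (Exc q N r γ) ≤ (r : ℝ) ^ 2 * (1 / 2) ^ (m / 400) := by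
  have h1 : ∀ q ∈ EB.QQ m, 1 / (q : ℝ) * EB.ind (Exc q N r γ) ≤
      ∑ x ∈ range r ×ˢ range r, 1 / (q : ℝ) * EB.ind (Res N q (γ x.1 - γ x.2)) := by
    intro q _
    rw [← Finset.mul_sum]
    refine mul_le_mul_of_nonneg_left (ind_le_sum _ _ _ ?_) (by positivity)
    rintro ⟨i, hi, i', hi', b, hb, h⟩
    exact ⟨(i, i'), mem_product.mpr ⟨mem_range.mpr hi, mem_range.mpr hi'⟩, b, hb, h⟩
  refine (Finset.sum_le_sum h1).trans ?_
  rw [Finset.sum_comm]
  refine (Finset.sum_le_sum fun x _ => res_sum m N (γ x.1 - γ x.2) hm hN).trans ?_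
  rw [Finset.sum_const, card_product, card_range, nsmul_eq_mul]
  push_cast
  exact le_of_eq (by ring)

theorem ac_D (q N n : ℕ) (F : ℕ → ℂ) :
    ac 1 N n (fun m => (EB.D q m : ℂ) * F m) = ac q N n F - ac 1 N n F := by
  unfold ac
  have h1 : (Ioc n (n + N)).filter (fun m => 1 ∣ m) = Ioc n (n + N) :=
    Finset.filter_true_of_mem fun m _ => one_dvd m
  rw [h1, Finset.sum_filter]
  have h2 : ∑ m ∈ Ioc n (n + N), (EB.D q m : ℂ) * F m =
      (∑ m ∈ Ioc n (n + N), if q ∣ m then F m else 0) * q - ∑ m ∈ Ioc n (n + N), F m := by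
    rw [Finset.sum_mul, ← Finset.sum_sub_distrib]
    refine Finset.sum_congr rfl fun m _ => ?_
    unfold EB.D
    split_ifs
    · push_cast
      ring
    · push_cast
      ring
  rw [h2]
  push_cast
  ring

theorem ker_le (hK : T_KER) (N q n : ℕ) (γ : ℝ) (hN1 : 1 ≤ N) (hq1 : 1 ≤ q) (hqN : q ≤ N) :
    ‖ac 1 N n (fun m => (EB.D q m : ℂ) * ee (γ * m))‖ ≤
      4 * EB.ind (Res N q γ) + q / 2 * (N : ℝ) ^ (-(1 / 2) : ℝ) := by
  have hN0 : (0 : ℝ) < N := by exact_mod_cast hN1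
  have hq0 : (0 : ℝ) < q := by exact_mod_cast hq1
  have hs0 : 0 < (N : ℝ) ^ (-(1 / 2) : ℝ) := Real.rpow_pos_of_pos hN0 _
  by_cases hr : Res N q γ
  · have e : EB.ind (Res N q γ) = 1 := by
      unfold EB.ind
      rw [if_pos hr]
    rw [e, ac_D]
    have h1 : ∀ q' : ℕ, 1 ≤ q' → q' ≤ N → ‖ac q' N n (fun m => ee (γ * m))‖ ≤ 2 := by
      intro q' hq' hqN'
      have hq0' : (0 : ℝ) < q' := by exact_mod_cast hq'
      refine (norm_ac_le q' N n _).trans ?_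
      unfold ar
      have h2 : ∑ m ∈ (Ioc n (n + N)).filter (fun m => q' ∣ m), ‖ee (γ * m)‖ =
          ((Ioc n (n + N)).filter (fun m => q' ∣ m)).card := by
        rw [Finset.sum_congr rfl fun m _ => norm_ee _, Finset.sum_const, nsmul_eq_mul, mul_one]
      rw [h2, div_le_iff₀ hN0]
      have h3 := card_mul_le q' N n hq'
      have h4 : (q' : ℝ) ≤ N := by exact_mod_cast hqN'
      linarith
    have h2 := norm_sub_le (ac q N n (fun m => ee (γ * m))) (ac 1 N n (fun m => ee (γ * m)))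
    have h3 := h1 q hq1 hqN
    have h4 := h1 1 le_rfl hN1
    have h5 : 0 ≤ (q : ℝ) / 2 * (N : ℝ) ^ (-(1 / 2) : ℝ) := by positivity
    linarith
  · have e : EB.ind (Res N q γ) = 0 := by
      unfold EB.ind
      rw [if_neg hr]
    rw [e]
    have hz : 0 < (N : ℝ) ^ (1 / 2 : ℝ) := Real.rpow_pos_of_pos hN0 _
    have h1 := (hK q N n γ hq1 hqN).2.2 ((N : ℝ) ^ (1 / 2 : ℝ)) hz (by
      intro b hb
      have h2 : (N : ℝ) ^ (-(1 / 2) : ℝ) < nd (γ - (b : ℝ) / q) := by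
        by_contra h3
        exact hr ⟨b, hb, not_lt.mp h3⟩
      have h3 : (N : ℝ) ^ (1 / 2 : ℝ) / N = (N : ℝ) ^ (-(1 / 2) : ℝ) := by
        rw [div_eq_iff hN0.ne']
        nth_rewrite 3 [← Real.rpow_one (N : ℝ)]
        rw [← Real.rpow_add hN0]
        norm_num
      rw [h3]
      exact h2.le)
    refine h1.trans (le_of_eq ?_)
    rw [Real.rpow_neg hN0.le]
    field_simp
    ring

theorem ker_sum (hK : T_KER) (m N n : ℕ) (γ : ℝ) (hm : 400 ≤ m) (hN : 2 ^ m ≤ N) :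
    ∑ q ∈ EB.QQ m, 1 / (q : ℝ) * ‖ac 1 N n (fun m => (EB.D q m : ℂ) * ee (γ * m))‖ ≤
      5 * (1 / 2) ^ (m / 400) := by
  have hN1 : 1 ≤ N := le_trans Nat.one_le_two_pow hN
  have hN0 : (0 : ℝ) < N := by exact_mod_cast hN1
  set s := (N : ℝ) ^ (-(1 / 2) : ℝ) with hs
  have hs0 : 0 ≤ s := Real.rpow_nonneg hN0.le _
  have h1 : ∀ q ∈ EB.QQ m, 1 / (q : ℝ) * ‖ac 1 N n (fun m => (EB.D q m : ℂ) * ee (γ * m))‖ ≤
      4 * (1 / (q : ℝ) * EB.ind (Res N q γ)) + 1 / 2 * s := by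
    intro q hq
    unfold EB.QQ at hq
    rw [mem_filter, mem_Ioc] at hq
    have hq0 : (0 : ℝ) < q := by exact_mod_cast hq.2.pos
    have hqN : q ≤ N := by
      refine le_trans (hq.1.2.trans (Nat.pow_le_pow_right (by norm_num) ?_)) hN
      exact Nat.div_le_self _ _
    have h2 := ker_le hK N q n γ hN1 hq.2.pos hqN
    have h3 := mul_le_mul_of_nonneg_left h2 (by positivity : (0 : ℝ) ≤ 1 / (q : ℝ))
    refine h3.trans (le_of_eq ?_)
    rw [← hs]
    field_simp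
  refine (Finset.sum_le_sum h1).trans ?_
  rw [Finset.sum_add_distrib, ← Finset.mul_sum, Finset.sum_const, nsmul_eq_mul]
  have h2 := res_sum m N γ hm hN
  have h3 : ((EB.QQ m).card : ℝ) ≤ 2 ^ (m / 200) := by
    have h4 : (EB.QQ m).card ≤ 2 ^ (m / 200) := by
      unfold EB.QQ
      refine (Finset.card_filter_le _ _).trans ?_
      rw [Nat.card_Ioc]
      exact Nat.sub_le _ _
    exact_mod_cast h4
  have h4 : (2 : ℝ) ^ (m / 200) * (1 / 2 * s) ≤ (1 / 2) ^ (m / 400) := by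
    have h5 : s ≤ 1 / (2 ^ (m / 200) * 2 ^ (m / 400)) := by
      refine le_of_sq_le_sq ?_ (by positivity)
      rw [hs, sq_rpow N hN1, div_pow, one_pow]
      refine one_div_le_one_div_of_le (by positivity) ?_
      have h6 : (2 : ℝ) ^ m ≤ N := by exact_mod_cast hN
      refine le_trans ?_ h6
      rw [← pow_add, ← pow_mul]
      exact pow_le_pow_right₀ (by norm_num) (by omega)
    have h6 : (0 : ℝ) < 2 ^ (m / 200) := by positivity
    have h7 : (0 : ℝ) < 2 ^ (m / 400) := by positivity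
    have h8 : (2 : ℝ) ^ (m / 200) * s ≤ (1 / 2) ^ (m / 400) := by
      refine (mul_le_mul_of_nonneg_left h5 h6.le).trans (le_of_eq ?_)
      rw [div_pow, one_pow]
      field_simp
    have h9 : 0 ≤ (2 : ℝ) ^ (m / 200) * s := by positivity
    linarith
  have h5 : ((EB.QQ m).card : ℝ) * (1 / 2 * s) ≤ 2 ^ (m / 200) * (1 / 2 * s) :=
    mul_le_mul_of_nonneg_right h3 (by positivity)
  linarith

theorem nrm_le (q N n : ℕ) (g : Ex) :
    |nrm q N n g| ≤ ∑ i ∈ range g.k, ∑ j ∈ range g.k, ‖g.c i‖ * ‖g.c j‖ *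
      ‖ac 1 N n (fun m => (EB.D q m : ℂ) * ee ((g.a j - g.a i) * m))‖ := by
  have e1 : ((nrm q N n g : ℝ) : ℂ) =
      ac 1 N n (fun m => (EB.D q m : ℂ) * g.f m * (starRingEnd ℂ) (g.f m)) := by
    have e2 : (fun m : ℕ => (EB.D q m : ℂ) * g.f m * (starRingEnd ℂ) (g.f m)) =
        fun m => (EB.D q m : ℂ) * ((‖g.f m‖ ^ 2 : ℝ) : ℂ) := by
      funext m
      rw [mul_assoc, Complex.mul_conj, Complex.normSq_eq_norm_sq]
    rw [e2, ac_D]
    unfold nrm ar ac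
    push_cast
    rfl
  have e3 : ‖((nrm q N n g : ℝ) : ℂ)‖ = |nrm q N n g| := Complex.norm_real _
  rw [← e3, e1, ac_conj 1 N n (fun m => (EB.D q m : ℂ) * g.f m) g]
  refine (norm_sum_le _ _).trans (Finset.sum_le_sum fun i _ => ?_)
  rw [norm_mul, RCLike.norm_conj]
  have e4 : ac 1 N n (fun m => (EB.D q m : ℂ) * g.f m * ee (-(g.a i * m))) =
      ∑ j ∈ range g.k, g.c j * ac 1 N n (fun m => (EB.D q m : ℂ) * ee ((g.a j - g.a i) * m)) := by
    have e5 : (fun m : ℕ => (EB.D q m : ℂ) * g.f m * ee (-(g.a i * m))) =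
        fun m => ∑ j ∈ range g.k, g.c j * ((EB.D q m : ℂ) * ee ((g.a j - g.a i) * m)) := by
      funext m
      unfold Ex.f
      rw [Finset.mul_sum, Finset.sum_mul]
      refine Finset.sum_congr rfl fun j _ => ?_
      have e6 : ee ((g.a j - g.a i) * m) = ee (g.a j * m) * ee (-(g.a i * m)) := by
        rw [← ee_add]
        congr 1
        ring
      rw [e6]
      ring
    rw [e5, ac_sum]
    exact Finset.sum_congr rfl fun j _ => ac_mul _ _ _ _ _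
  rw [e4]
  calc ‖g.c i‖ * ‖∑ j ∈ range g.k, g.c j *
        ac 1 N n (fun m => (EB.D q m : ℂ) * ee ((g.a j - g.a i) * m))‖
      ≤ ‖g.c i‖ * ∑ j ∈ range g.k, ‖g.c j‖ *
        ‖ac 1 N n (fun m => (EB.D q m : ℂ) * ee ((g.a j - g.a i) * m))‖ := by
        refine mul_le_mul_of_nonneg_left ((norm_sum_le _ _).trans (le_of_eq ?_)) (norm_nonneg _)
        exact Finset.sum_congr rfl fun j _ => norm_mul _ _
    _ = _ := by
        rw [Finset.mul_sum]
        exact Finset.sum_congr rfl fun j _ => by ring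

theorem nrm_sum (hK : T_KER) (m N n : ℕ) (g : Ex) (hm : 400 ≤ m) (hN : 2 ^ m ≤ N) :
    ∑ q ∈ EB.QQ m, 1 / (q : ℝ) * |nrm q N n g| ≤ 5 * g.nm ^ 2 * (1 / 2) ^ (m / 400) := by
  have h1 : ∀ q ∈ EB.QQ m, 1 / (q : ℝ) * |nrm q N n g| ≤
      ∑ x ∈ range g.k ×ˢ range g.k, ‖g.c x.1‖ * ‖g.c x.2‖ * (1 / (q : ℝ) *
        ‖ac 1 N n (fun m => (EB.D q m : ℂ) * ee ((g.a x.2 - g.a x.1) * m))‖) := by
    intro q _
    refine (mul_le_mul_of_nonneg_left (nrm_le q N n g) (by positivity)).trans (le_of_eq ?_)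
    rw [← Finset.sum_product', Finset.mul_sum]
    exact Finset.sum_congr rfl fun x _ => by ring
  refine (Finset.sum_le_sum h1).trans ?_
  rw [Finset.sum_comm]
  have h2 : ∀ x ∈ range g.k ×ˢ range g.k, ∑ q ∈ EB.QQ m, ‖g.c x.1‖ * ‖g.c x.2‖ * (1 / (q : ℝ) *
      ‖ac 1 N n (fun m => (EB.D q m : ℂ) * ee ((g.a x.2 - g.a x.1) * m))‖) ≤
      ‖g.c x.1‖ * ‖g.c x.2‖ * (5 * (1 / 2) ^ (m / 400)) := by
    intro x _
    rw [← Finset.mul_sum]
    exact mul_le_mul_of_nonneg_left (ker_sum hK m N n _ hm hN) (by positivity)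
  refine (Finset.sum_le_sum h2).trans (le_of_eq ?_)
  rw [← Finset.sum_mul]
  have e : ∑ x ∈ range g.k ×ˢ range g.k, ‖g.c x.1‖ * ‖g.c x.2‖ = g.nm ^ 2 := by
    unfold Ex.nm
    rw [sq, Finset.sum_mul_sum, ← Finset.sum_product']
  rw [e]
  ring

end Pool.Agent.H84.GS
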