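import Pool.Agent.H84.GS.Bas
import Pool.Agent.H84.GS.Dy

/-!
# Theorem (G), MP_c59857_nt: the defects of the energy are summable over the levels
-/

set_option autoImplicit false

namespace Pool.Agent.H84.GS

open Finset Pool.Agent.H6.N4D Pool.Agent.H93.GS
open Pool.Agent.H93 (EB.lg EB.QQ)

/-- the mean energy for the multiples of `q` -/
noncomputable def aq (th : ℝ) (lam : ℕ → ℝ) (X q j : ℕ) : ℝ :=
  EB.lg X (fun n => En th lam q (2 ^ j) n)

theorem aq_nonneg (th : ℝ) (lam : ℕ → ℝ) (X q j : ℕ) (hth : 0 < th) (hl : ∀ n, |lam n| ≤ 1)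
    (hq : 1 ≤ q) (hqj : q ≤ 2 ^ j) : 0 ≤ aq th lam X q j :=
  lg_nonneg X _ fun n => En_nonneg th lam q _ n hth hq hqj hl

theorem aq_le (th : ℝ) (lam : ℕ → ℝ) (X q j : ℕ) (hth : 0 < th) (hl : ∀ n, |lam n| ≤ 1)
    (hq : 1 ≤ q) (hqj : q ≤ 2 ^ j) (hX : 3 ≤ X) (hlX : 1 ≤ Real.log X) :
    aq th lam X q j ≤ 4 * Real.log X := by
  have h1 := lg_le X (fun n => En th lam q (2 ^ j) n) 2
    fun n => En_le th lam q _ n hth hq hqj hl
  have h2 := hs_le X (by omega)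
  unfold aq
  linarith

theorem inner (th : ℝ) (lam : ℕ → ℝ) (X q p₀ m₀ me : ℕ) (hth : 0 < th) (hl : ∀ n, |lam n| ≤ 1)
    (hq : q.Prime) (hX : 3 ≤ X) (hlX : 1 ≤ Real.log X) (hm₀ : 1000 * (p₀ + 1) ≤ m₀)
    (hc : m₀ < 400 * Nat.clog 2 q) :
    ∑ m ∈ (Icc m₀ me).filter (fun m => q ∈ EB.QQ m),
      1 / (m : ℝ) * (aq th lam X q (m - p₀) - aq th lam X q m) ≤
      p₀ * (4 * Real.log X) / (100 * (Nat.clog 2 q : ℕ)) := by
  set c := Nat.clog 2 q with hcd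
  have e : (Icc m₀ me).filter (fun m => q ∈ EB.QQ m) =
      Icc (max m₀ (200 * c)) (min me (400 * c - 1)) := by
    ext m
    rw [mem_filter, mem_Icc, mem_QQ q m hq, mem_Icc, ← hcd]
    omega
  rw [e]
  have hq2 : q ≤ 2 ^ c := Nat.le_pow_clog (by norm_num) q
  have hqj : ∀ j, max m₀ (200 * c) - p₀ ≤ j → q ≤ 2 ^ j := fun j hj =>
    hq2.trans (Nat.pow_le_pow_right (by norm_num) (by omega))
  have h := shift_sum (aq th lam X q) (4 * Real.log X) p₀ (max m₀ (200 * c))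
    (min me (400 * c - 1)) (by omega)
    (fun j hj => aq_nonneg th lam X q j hth hl hq.one_lt.le (hqj j hj))
    (fun j hj => aq_le th lam X q j hth hl hq.one_lt.le (hqj j hj) hX hlX)
  refine h.trans ?_
  have hc0 : (0 : ℝ) < c := by exact_mod_cast (by omega : 0 < c)
  refine div_le_div_of_nonneg_left (by positivity) (by positivity) ?_
  exact_mod_cast (by omega : 100 * c ≤ max m₀ (200 * c) - p₀)

theorem gmq_sum (th : ℝ) (lam : ℕ → ℝ) (X p₀ m₀ me : ℕ) (hth : 0 < th) (hl : ∀ n, |lam n| ≤ 1)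
    (hX : 3 ≤ X) (hlX : 1 ≤ Real.log X) (hm₀ : 1000 * (p₀ + 1) ≤ m₀) :
    ∑ m ∈ Icc m₀ me, 1 / (m : ℝ) * gmq th lam X p₀ m ≤ 128 * p₀ * Real.log X / m₀ := by
  set Q := (Ioc 1 (2 ^ me)).filter Nat.Prime with hQ
  have hQQ : ∀ m ∈ Icc m₀ me, EB.QQ m = Q.filter (fun q => q ∈ EB.QQ m) := by
    intro m hm
    ext q
    rw [mem_filter]
    refine ⟨fun h => ⟨?_, h⟩, fun h => h.2⟩
    have h' := h
    unfold Pool.Agent.H93.EB.QQ at h'
    rw [mem_filter, mem_Ioc] at h'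
    rw [hQ, mem_filter, mem_Ioc]
    rw [mem_Icc] at hm
    refine ⟨⟨h'.2.one_lt, h'.1.2.trans (Nat.pow_le_pow_right (by norm_num) ?_)⟩, h'.2⟩
    have : m / 200 ≤ m := Nat.div_le_self _ _
    omega
  -- exchange
  have e1 : ∑ m ∈ Icc m₀ me, 1 / (m : ℝ) * gmq th lam X p₀ m =
      ∑ q ∈ Q, 1 / (q : ℝ) * ∑ m ∈ (Icc m₀ me).filter (fun m => q ∈ EB.QQ m),
        1 / (m : ℝ) * (aq th lam X q (m - p₀) - aq th lam X q m) := by
    have e2 : ∀ m ∈ Icc m₀ me, 1 / (m : ℝ) * gmq th lam X p₀ m =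
        ∑ q ∈ Q, if q ∈ EB.QQ m then
          1 / (q : ℝ) * (1 / (m : ℝ) * (aq th lam X q (m - p₀) - aq th lam X q m)) else 0 := by
      intro m hm
      rw [← Finset.sum_filter, ← hQQ m hm]
      unfold gmq
      rw [Finset.mul_sum]
      refine Finset.sum_congr rfl fun q _ => ?_
      unfold aq
      ring
    rw [Finset.sum_congr rfl e2, Finset.sum_comm]
    refine Finset.sum_congr rfl fun q _ => ?_
    rw [← Finset.sum_filter, Finset.mul_sum]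
  rw [e1]
  have hlX0 : (0 : ℝ) ≤ Real.log X := by linarith
  have hp0 : (0 : ℝ) ≤ p₀ := Nat.cast_nonneg _
  -- the weights
  set w : ℕ → ℝ := fun c => if m₀ < 400 * c then p₀ * (4 * Real.log X) / (100 * (c : ℝ)) else 0
    with hw
  have hw0 : ∀ c, 0 ≤ w c := by
    intro c
    rw [hw]
    beta_reduce
    split_ifs
    · positivity
    · exact le_rfl
  have h1 : ∑ q ∈ Q, 1 / (q : ℝ) * ∑ m ∈ (Icc m₀ me).filter (fun m => q ∈ EB.QQ m),
        1 / (m : ℝ) * (aq th lam X q (m - p₀) - aq th lam X q m) ≤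
      ∑ q ∈ Q, 1 / (q : ℝ) * w (Nat.clog 2 q) := by
    refine Finset.sum_le_sum fun q hq => ?_
    rw [hQ, mem_filter] at hq
    refine mul_le_mul_of_nonneg_left ?_ (by positivity)
    rw [hw]
    beta_reduce
    split_ifs with hc
    · exact inner th lam X q p₀ m₀ me hth hl hq.2 hX hlX hm₀ hc
    · have e : (Icc m₀ me).filter (fun m => q ∈ EB.QQ m) = ∅ := by
        rw [Finset.filter_eq_empty_iff]
        intro m hm h
        rw [mem_QQ q m hq.2] at h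
        rw [mem_Icc] at hm
        omega
      rw [e, Finset.sum_empty]
  -- groups
  have h2 : ∑ q ∈ Q, 1 / (q : ℝ) * w (Nat.clog 2 q) =
      ∑ c ∈ Icc 0 me, ∑ q ∈ Q.filter (fun q => Nat.clog 2 q = c),
        1 / (q : ℝ) * w (Nat.clog 2 q) := by
    refine (Finset.sum_fiberwise_of_maps_to (fun q hq => ?_) _).symm
    rw [hQ, mem_filter, mem_Ioc] at hq
    rw [mem_Icc]
    exact ⟨Nat.zero_le _, (Nat.clog_le_iff_le_pow (by norm_num)).mpr hq.1.2⟩
  have h3 : ∀ c ∈ Icc 0 me, ∑ q ∈ Q.filter (fun q => Nat.clog 2 q = c),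
        1 / (q : ℝ) * w (Nat.clog 2 q) ≤ (∑ q ∈ DD c, 1 / (q : ℝ)) * w c := by
    intro c _
    rw [Finset.sum_mul]
    have e : ∑ q ∈ Q.filter (fun q => Nat.clog 2 q = c), 1 / (q : ℝ) * w (Nat.clog 2 q) =
        ∑ q ∈ Q.filter (fun q => Nat.clog 2 q = c), 1 / (q : ℝ) * w c := by
      refine Finset.sum_congr rfl fun q hq => ?_
      rw [(mem_filter.mp hq).2]
    rw [e]
    refine Finset.sum_le_sum_of_subset_of_nonneg (fun q hq => ?_) fun q _ _ =>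
      mul_nonneg (by positivity) (hw0 c)
    rw [mem_filter, hQ, mem_filter, mem_Ioc] at hq
    obtain ⟨⟨⟨ha, _⟩, hb⟩, hc⟩ := hq
    unfold DD
    rw [mem_filter, mem_Ioc]
    refine ⟨⟨?_, ?_⟩, hb⟩
    · rw [← Nat.lt_clog_iff_pow_lt (by norm_num), hc]
      have h := Nat.clog_pos (by norm_num : 1 < 2) ha
      omega
    · rw [← Nat.clog_le_iff_le_pow (by norm_num), hc]
  have hm0 : (0 : ℝ) < m₀ := by exact_mod_cast (by omega : 0 < m₀)
  have h4 : ∑ c ∈ Icc 0 me, (∑ q ∈ DD c, 1 / (q : ℝ)) * w c ≤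
      ∑ c ∈ Ioc (m₀ / 400) me, p₀ * (16 * Real.log X) / 100 * (1 / (((c : ℝ) - 1) * c)) := by
    have e : ∀ c ∈ Icc 0 me, (∑ q ∈ DD c, 1 / (q : ℝ)) * w c ≤
        if m₀ < 400 * c then p₀ * (16 * Real.log X) / 100 * (1 / (((c : ℝ) - 1) * c)) else 0 := by
      intro c _
      rw [hw]
      beta_reduce
      split_ifs with hc
      · have hc2 : 2 ≤ c := by omega
        have h5 := DD_sum c hc2
        have hc1 : (0 : ℝ) < (c : ℝ) - 1 := by
          have : (2 : ℝ) ≤ c := by exact_mod_cast hc2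
          linarith
        have hc0 : (0 : ℝ) < c := by linarith
        refine (mul_le_mul_of_nonneg_right h5 (by positivity)).trans (le_of_eq ?_)
        field_simp
        ring
      · rw [mul_zero]
    refine (Finset.sum_le_sum e).trans ?_
    rw [← Finset.sum_filter]
    refine le_of_eq (Finset.sum_congr ?_ fun _ _ => rfl)
    ext c
    rw [mem_filter, mem_Icc, mem_Ioc]
    omega
  have h5 : ∑ c ∈ Ioc (m₀ / 400) me,
      p₀ * (16 * Real.log X) / 100 * (1 / (((c : ℝ) - 1) * c)) ≤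
      p₀ * (16 * Real.log X) / 100 * (1 / ((m₀ / 400 : ℕ) : ℝ)) := by
    rw [← Finset.mul_sum]
    exact mul_le_mul_of_nonneg_left (tele (m₀ / 400) (by omega) me) (by positivity)
  have h6 : 1 / ((m₀ / 400 : ℕ) : ℝ) ≤ 800 / m₀ := by
    have h7 : (0 : ℝ) < ((m₀ / 400 : ℕ) : ℝ) := by exact_mod_cast (by omega : 0 < m₀ / 400)
    rw [div_le_div_iff₀ h7 hm0, one_mul]
    exact_mod_cast (by omega : m₀ ≤ 800 * (m₀ / 400))
  have h7 : p₀ * (16 * Real.log X) / 100 * (1 / ((m₀ / 400 : ℕ) : ℝ)) ≤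
      p₀ * (16 * Real.log X) / 100 * (800 / m₀) := mul_le_mul_of_nonneg_left h6 (by positivity)
  have h8 : p₀ * (16 * Real.log X) / 100 * (800 / (m₀ : ℝ)) = 128 * p₀ * Real.log X / m₀ := by
    field_simp
    ring
  calc _ ≤ ∑ q ∈ Q, 1 / (q : ℝ) * w (Nat.clog 2 q) := h1
    _ = _ := h2
    _ ≤ ∑ c ∈ Icc 0 me, (∑ q ∈ DD c, 1 / (q : ℝ)) * w c := Finset.sum_le_sum h3
    _ ≤ _ := h4
    _ ≤ _ := h5
    _ ≤ _ := h7
    _ = _ := h8

theorem gm_sum (th : ℝ) (lam : ℕ → ℝ) (X p₀ m₀ me : ℕ) (hth : 0 < th) (hl : ∀ n, |lam n| ≤ 1)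
    (hX : 3 ≤ X) (hlX : 1 ≤ Real.log X) (hm₀ : 1000 * (p₀ + 1) ≤ m₀) :
    ∑ m ∈ Icc m₀ me, 1 / (m : ℝ) * gm th lam X p₀ m ≤ 8 * p₀ * Real.log X / m₀ := by
  have h := shift_sum (aq th lam X 1) (4 * Real.log X) p₀ m₀ me (by omega)
    (fun j _ => aq_nonneg th lam X 1 j hth hl le_rfl Nat.one_le_two_pow)
    (fun j _ => aq_le th lam X 1 j hth hl le_rfl Nat.one_le_two_pow hX hlX)
  have hm0 : (0 : ℝ) < m₀ := by exact_mod_cast (by omega : 0 < m₀)
  have hd : (0 : ℝ) < ((m₀ - p₀ : ℕ) : ℝ) := by exact_mod_cast (by omega : 0 < m₀ - p₀)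
  refine le_trans (le_of_eq ?_) (h.trans ?_)
  · exact Finset.sum_congr rfl fun m _ => rfl
  · rw [div_le_div_iff₀ hd hm0]
    have h1 : (m₀ : ℝ) ≤ 2 * ((m₀ - p₀ : ℕ) : ℝ) := by
      exact_mod_cast (by omega : m₀ ≤ 2 * (m₀ - p₀))
    have h2 : 0 ≤ (p₀ : ℝ) * (4 * Real.log X) := by positivity
    have h3 := mul_le_mul_of_nonneg_left h1 h2
    linarith

theorem pf_GMQ : T_GMQ := by
  intro th p₀ hth _
  refine ⟨136 * (p₀ + 1), by positivity, ?_⟩
  intro X m₀ me lam hX hl hm₀ hme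
  have hX3 : (3 : ℝ) ≤ X := by exact_mod_cast hX
  have hlX : 1 ≤ Real.log X := by
    have h1 : Real.exp 1 ≤ X := by
      have := Real.exp_one_lt_d9
      linarith
    exact (Real.le_log_iff_exp_le (by linarith)).mpr h1
  have hm0 : (0 : ℝ) < m₀ := by exact_mod_cast (by omega : 0 < m₀)
  have h1 := gm_sum th lam X p₀ m₀ me hth hl hX hlX hm₀
  have h2 := gmq_sum th lam X p₀ m₀ me hth hl hX hlX hm₀
  have e : ∑ m ∈ Icc m₀ me, 1 / (m : ℝ) * (gm th lam X p₀ m + gmq th lam X p₀ m) =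
      ∑ m ∈ Icc m₀ me, 1 / (m : ℝ) * gm th lam X p₀ m +
      ∑ m ∈ Icc m₀ me, 1 / (m : ℝ) * gmq th lam X p₀ m := by
    rw [← Finset.sum_add_distrib]
    exact Finset.sum_congr rfl fun m _ => mul_add _ _ _
  rw [e]
  have h3 : 8 * p₀ * Real.log X / m₀ + 128 * p₀ * Real.log X / m₀ ≤
      136 * (p₀ + 1) / m₀ * Real.log X := by
    have : 0 ≤ 136 * Real.log X / (m₀ : ℝ) := by positivity
    have e2 : 136 * ((p₀ : ℝ) + 1) / m₀ * Real.log X =
        8 * p₀ * Real.log X / m₀ + 128 * p₀ * Real.log X / m₀ + 136 * Real.log X / m₀ := by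
      field_simp
      ring
    linarith
  have h4 : 0 ≤ Real.log (me : ℝ) := Real.log_nonneg (by exact_mod_cast (by omega : 1 ≤ me))
  have h5 : 0 ≤ 136 * ((p₀ : ℝ) + 1) * (me + 1) * (1 + Real.log me) := by positivity
  linarith

end Pool.Agent.H84.GS
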